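import Pool.Agent.H652.PM.Basic
import Pool.Graph.R_pool_sql_team_seeded_2aa45f1a.Q170.GO.Semi

/-!
# Geometric flat bundles and families of matrices with prescribed entries

Let `F` be the function field of the smooth complex variety `Y_ℂ` (of a dense open subvariety, if `Y` is a
stack). A flat bundle on a dense open part of `Y_ℂ` is determined, up to restriction to a smaller open part, by
its generic fibre, a vector space over `F` with an integrable connection, that is a module over the ring of
differential operators of `F`. Simple flat bundles on `Y_ℂ` have simple generic fibres.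

`D.H j X` is the relative de Rham cohomology with compact supports of the schemes `X` over `F` with the
Gauss-Manin connection, and `D.G w j X` its part of weight `w`. For smooth projective `X` this is the
Gauss-Manin flat bundle of a smooth projective family over a dense open part of `Y_ℂ`.

`M : PMat F` consists of a size `m`, a set of places in an `m × m` matrix, and constants `c e ∈ F` for these
places. `M.sch` is the scheme over `F` of the invertible `m × m` matrices with the entries `c e` at
these places, the other entries being independent coordinates; it is the generic fibre of the smooth family,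
over a dense open part of `Y_ℂ`, of the complements of the hypersurfaces `det = 0` in an affine space.

**Theorem.** (1) Let `E = S_1 ⊕ ⋯ ⊕ S_n` be a semisimple flat bundle, the `S_i` simple. Then `E` is geometric
if and only if every `S_i` is a subquotient of the Gauss-Manin flat bundle `H^j_c(M_t)` of a family of
invertible matrices with prescribed entries, for some `j`.

(2) For every scheme `X` of finite type over `F` there is a finite list of matrices with prescribed entries
such that all simple subquotients of the flat bundles `H^j_c(X)` are subquotients of the flat bundles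
`H^j_c(M_t)` of the families in the list; the list does not depend on the theory `D`.
-/

set_option autoImplicit false

open CategoryTheory CategoryTheory.Limits AlgebraicGeometry Pool.Agent.Y116.UV Pool.Agent.Z125.UN
  Pool.Agent.Q193.LT Pool.Agent.Q148.LI Pool.Agent.Q170.GO Pool.Agent.H652.PM

namespace Pool.Agent.Results.MP_e3793a_ag.PrescribedMatrices

attribute [local instance] HasFiniteBiproducts.of_hasFiniteProducts

/-- The ring of differential operators of the field `F` over `ℂ`, generated by the multiplications and the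
derivations. -/
noncomputable def DiffOps (F : Type) [Field F] [Algebra ℂ F] : Subalgebra ℂ (Module.End ℂ F) :=
  Algebra.adjoin ℂ (Set.range (LinearMap.mulLeft ℂ) ∪
    Set.range fun d : Derivation ℂ F F => (d : F →ₗ[ℂ] F))

/-- Generic fibres of flat bundles: vector spaces over `F` with an integrable connection. -/
abbrev Flat (F : Type) [Field F] [Algebra ℂ F] : Type 1 := ModuleCat.{0} (DiffOps F)

variable {F : Type} [Field F]

section

universe v u

variable {A : Type u} [Category.{v} A] [Abelian A] {D : Data F A} {one : A}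

/-- The finite list for `X`. -/
lemma occ_list (X : Sch F) (hX : FT True X) : ∃ L : List (PMat F),
    ∀ (A : Type u) [Category.{v} A] [Abelian A] (D : Data F A) (one : A), IsGeo D one →
      ∀ (S : A) [Simple S], (∃ j, D.Occ S (D.H j X)) →
        ∃ M ∈ L, ∃ j, D.Occ S (D.H j M.sch) := by
  obtain ⟨L, hL⟩ := reachedP X hX
  refine ⟨pm0 F :: L, ?_⟩
  intro A _ _ D one h S _ ⟨i, hi⟩
  by_contra h0
  have h3 : ∀ n, D.NotOcc S (D.H n (aff F F)) := by
    intro n hn
    obtain ⟨e0⟩ := pm0_iso (K := F)
    obtain ⟨e⟩ := h.cpt.iso (ft_aff True) ⟨e0.symm⟩ n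
    exact h0 ⟨pm0 F, List.mem_cons_self, n, occ_iso e hn⟩
  exact hL _ (bnd_compact h.cpt (notOcc_serre h.cpt (S := S)) h3)
    (fun M hM n hn => h0 ⟨M, List.mem_cons_of_mem _ hM, n, hn⟩) i hi

/-- Simple objects. -/
lemma simple_iff (h : IsGeo D one) (hc : IsConst D one) (S : A) [Simple S] :
    D.Geometric S ↔ ∃ M : PMat F, ∃ j, Sub S (D.H j M.sch) := by
  constructor
  · rintro ⟨Y, hY, i, hi⟩
    obtain ⟨L, hL⟩ := occ_list.{v, u} Y hY.ft
    obtain ⟨M, _, j, hj⟩ := hL A D one h S ⟨i, (occ_triv hc _).mpr hi⟩
    exact ⟨M, j, (occ_triv hc _).mp hj⟩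
  · rintro ⟨M, i, hi⟩
    obtain ⟨b, hb⟩ := (occ_triv hc _).mpr hi
    obtain ⟨w, hw⟩ := (h.graded M.sch M.ft i b S ‹_›).mp hb
    obtain ⟨n, hn⟩ := h.finDim M.sch M.ft
    obtain ⟨Y, hY, -, h2⟩ := h.resolve M.sch n M.ft hn w i b S ‹_› hw
    exact ⟨Y, hY, w, (occ_triv hc _).mp ⟨b, h2⟩⟩

end

variable [Algebra ℂ F]

/-- **Matrices with prescribed entries decide.** See the explanations above. -/
theorem result :
    (∀ {D : Data F (Flat F)} {one : Flat F}, IsGeo D one → IsConst D one →
      (∀ Y : Sch F, SmoothProj Y → ∀ i : ℤ, i < 0 → IsZero (D.H i Y)) →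
      ∀ (n : ℕ) (S : Fin n → Flat F), (∀ i, Simple (S i)) → ∀ E : Flat F, Nonempty (E ≅ ⨁ S) →
        (D.Geometric E ↔ ∀ i, ∃ M : PMat F, ∃ j, Sub (S i) (D.H j M.sch))) ∧
    ∀ X : Sch F, FT True X → ∃ L : List (PMat F),
      ∀ (D : Data F (Flat F)) (one : Flat F), IsGeo D one → IsConst D one →
        ∀ (S : Flat F) [Simple S], (∃ j, Sub S (D.H j X)) →
          ∃ M ∈ L, ∃ j, Sub S (D.H j M.sch) := by
  constructor
  · rintro D one h hc hneg n S hS E ⟨e⟩
    have h1 := geometric_biproduct hc S hneg hS
    have h2 : D.Geometric E ↔ D.Geometric (⨁ S) :=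
      ⟨fun ⟨Y, hY, i, hi⟩ => ⟨Y, hY, i, hi.iso_left e⟩,
        fun ⟨Y, hY, i, hi⟩ => ⟨Y, hY, i, hi.iso_left e.symm⟩⟩
    rw [h2, h1]
    refine forall_congr' fun i => ?_
    have := hS i
    exact simple_iff h hc (S i)
  · intro X hX
    obtain ⟨L, hL⟩ := occ_list.{0, 1} X hX
    refine ⟨L, fun D one h hc S _ ⟨j, hj⟩ => ?_⟩
    obtain ⟨M, hM, i, hi⟩ := hL (Flat F) D one h S ⟨j, (occ_triv hc _).mpr hj⟩
    exact ⟨M, hM, i, (occ_triv hc _).mp hi⟩

end Pool.Agent.Results.MP_e3793a_ag.PrescribedMatrices
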